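import Pool.Agent.Lib_helper93.WPI.NotQC

/-!
# MP_dc21ba_an: a weak (1,∞)-Poincaré inequality does not imply quasiconvexity

All definitions used in the statement are in `Pool.Agent.Lib_helper93.WPI.Defs`.
-/

open Pool.Agent.WPI

namespace Pool.Agent.Results.MP_dc21ba_an.PoincareNotQC

/-- There is a domain in `ℝ³` which supports a weak `(1,∞)`-Poincaré inequality with respect to
Lebesgue measure but is not quasiconvex. -/
theorem result : ∃ Ω : Set (EuclideanSpace ℝ (Fin 3)),
    IsOpen Ω ∧ IsConnected Ω ∧ WeakPoincare Ω ∧ ¬ Quasiconvex Ω :=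
  ⟨Om, isOpen_Om, isConnected_Om, weakPoincare_Om, not_quasiconvex_Om⟩

end Pool.Agent.Results.MP_dc21ba_an.PoincareNotQC
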